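import Pool.Agent.FLX.Stmts

/-! FLX, module EXP (helper10). -/

set_option autoImplicit false

open scoped InnerProductSpace Topology ContDiff
open MeasureTheory Filter Set

noncomputable section

namespace Pool.Agent.FLX.H10

open Pool.Agent.Helper42_Paneitz Pool.Agent.Helper82_Vir Pool.Agent.FLX

/-! ### the quadratic form -/

/-- `∫ g(y) ⟨u, y⟩ ⟨v, y⟩` -/
def Bf (g : S4 → ℝ) (u v : E5) : ℝ := ∫ y : S4, g y * (⟪u, (y : E5)⟫_ℝ * ⟪v, (y : E5)⟫_ℝ) ∂sig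

theorem cont_in (v : E5) : Continuous (fun y : S4 => ⟪v, (y : E5)⟫_ℝ) :=
  continuous_const.inner continuous_subtype_val

theorem cont_g {β : ℝ → ℝ} (hβ : Continuous β) (p : E5) :
    Continuous (fun y : S4 => β ⟪p, (y : E5)⟫_ℝ) := hβ.comp (cont_in p)

theorem cont_B {g : S4 → ℝ} (hg : Continuous g) (u v : E5) :
    Continuous (fun y : S4 => g y * (⟪u, (y : E5)⟫_ℝ * ⟪v, (y : E5)⟫_ℝ)) :=
  hg.mul ((cont_in u).mul (cont_in v))

theorem Bf_comm (g : S4 → ℝ) (u v : E5) : Bf g u v = Bf g v u := by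
  unfold Bf
  congr 1
  funext y
  ring

theorem Bf_add {g : S4 → ℝ} (hg : Continuous g) (u u' v : E5) :
    Bf g (u + u') v = Bf g u v + Bf g u' v := by
  unfold Bf
  rw [← integral_add (integrable_cont (cont_B hg u v)) (integrable_cont (cont_B hg u' v))]
  congr 1
  funext y
  rw [inner_add_left]
  ring

theorem Bf_add' {g : S4 → ℝ} (hg : Continuous g) (u v v' : E5) :
    Bf g u (v + v') = Bf g u v + Bf g u v' := by
  rw [Bf_comm, Bf_add hg, Bf_comm g v, Bf_comm g v']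

theorem Bf_smul (g : S4 → ℝ) (c : ℝ) (u v : E5) : Bf g (c • u) v = c * Bf g u v := by
  unfold Bf
  rw [← integral_const_mul]
  congr 1
  funext y
  rw [real_inner_smul_left]
  ring

theorem Bf_smul' (g : S4 → ℝ) (c : ℝ) (u v : E5) : Bf g u (c • v) = c * Bf g u v := by
  rw [Bf_comm, Bf_smul, Bf_comm]

theorem Bf_neg' (g : S4 → ℝ) (u v : E5) : Bf g u (-v) = - Bf g u v := by
  rw [← neg_one_smul ℝ v, Bf_smul']
  ring

/-- invariance under the isometries which fix `p` -/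
theorem Bf_act {β : ℝ → ℝ} (hβ : Continuous β) (p : E5) (R : E5 ≃ₗᵢ[ℝ] E5) (hR : R p = p)
    (u v : E5) : Bf (fun y => β ⟪p, (y : E5)⟫_ℝ) (R u) (R v) = Bf (fun y => β ⟪p, (y : E5)⟫_ℝ) u v := by
  unfold Bf
  rw [← integral_act R (cont_B (cont_g hβ p) (R u) (R v))]
  congr 1
  funext y
  have h1 : ∀ w : E5, ⟪R w, ((act R y : S4) : E5)⟫_ℝ = ⟪w, (y : E5)⟫_ℝ := by
    intro w
    rw [act_coe, R.inner_map_map]
  have h2 : ⟪p, ((act R y : S4) : E5)⟫_ℝ = ⟪p, (y : E5)⟫_ℝ := by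
    have := h1 p
    rwa [hR] at this
  rw [h1, h1, h2]

theorem orth_fix {p w : E5} (h : ⟪p, w⟫_ℝ = 0) : (Submodule.reflection (ℝ ∙ w)ᗮ) p = p := by
  apply Submodule.reflection_mem_subspace_eq_self
  rw [Submodule.mem_orthogonal_singleton_iff_inner_left]
  exact h

section
variable {β : ℝ → ℝ} (hβ : Continuous β) (p : E5)

include hβ

theorem Bf_cross {w : E5} (h : ⟪p, w⟫_ℝ = 0) : Bf (fun y => β ⟪p, (y : E5)⟫_ℝ) p w = 0 := by
  have h1 := Bf_act hβ p (Submodule.reflection (ℝ ∙ w)ᗮ) (orth_fix h) p w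
  rw [orth_fix h, Submodule.reflection_orthogonalComplement_singleton_eq_neg, Bf_neg'] at h1
  linarith

theorem Bf_eq_norm {v w : E5} (hv : ⟪p, v⟫_ℝ = 0) (hw : ⟪p, w⟫_ℝ = 0) (h : ‖v‖ = ‖w‖) :
    Bf (fun y => β ⟪p, (y : E5)⟫_ℝ) v v = Bf (fun y => β ⟪p, (y : E5)⟫_ℝ) w w := by
  have h0 : ⟪p, v - w⟫_ℝ = 0 := by rw [inner_sub_right, hv, hw, sub_zero]
  have h1 := Bf_act hβ p (Submodule.reflection (ℝ ∙ (v - w))ᗮ) (orth_fix h0) v v
  rw [Submodule.reflection_sub h] at h1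
  exact h1.symm

theorem Bf_diag : ∃ m : ℝ, ∀ v : E5, ⟪p, v⟫_ℝ = 0 →
    Bf (fun y => β ⟪p, (y : E5)⟫_ℝ) v v = m * ‖v‖ ^ 2 := by
  have key : ∀ v : E5, v ≠ 0 → ⟪p, v⟫_ℝ = 0 → ‖(‖v‖⁻¹ • v)‖ = 1 ∧ ⟪p, ‖v‖⁻¹ • v⟫_ℝ = 0 ∧
      Bf (fun y => β ⟪p, (y : E5)⟫_ℝ) v v = ‖v‖ ^ 2 *
        Bf (fun y => β ⟪p, (y : E5)⟫_ℝ) (‖v‖⁻¹ • v) (‖v‖⁻¹ • v) := by
    intro v hv0 hv
    have hn : ‖v‖ ≠ 0 := norm_ne_zero_iff.2 hv0
    refine ⟨?_, ?_, ?_⟩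
    · rw [norm_smul, norm_inv, norm_norm, inv_mul_cancel₀ hn]
    · rw [real_inner_smul_right, hv, mul_zero]
    · rw [Bf_smul, Bf_smul']
      field_simp
  by_cases hex : ∃ e : E5, ‖e‖ = 1 ∧ ⟪p, e⟫_ℝ = 0
  · obtain ⟨e, he1, he2⟩ := hex
    refine ⟨Bf (fun y => β ⟪p, (y : E5)⟫_ℝ) e e, fun v hv => ?_⟩
    by_cases hv0 : v = 0
    · subst hv0
      have : Bf (fun y => β ⟪p, (y : E5)⟫_ℝ) (0 : E5) 0 = 0 := by
        have h1 := Bf_smul (fun y : S4 => β ⟪p, (y : E5)⟫_ℝ) 0 (0 : E5) 0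
        rwa [zero_smul, zero_mul] at h1
      rw [this, norm_zero]
      ring
    · obtain ⟨k1, k2, k3⟩ := key v hv0 hv
      rw [k3, Bf_eq_norm hβ p k2 he2 (k1.trans he1.symm)]
      ring
  · refine ⟨0, fun v hv => ?_⟩
    by_cases hv0 : v = 0
    · subst hv0
      have : Bf (fun y => β ⟪p, (y : E5)⟫_ℝ) (0 : E5) 0 = 0 := by
        have h1 := Bf_smul (fun y : S4 => β ⟪p, (y : E5)⟫_ℝ) 0 (0 : E5) 0
        rwa [zero_smul, zero_mul] at h1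
      rw [this, norm_zero]
      ring
    · obtain ⟨k1, k2, _⟩ := key v hv0 hv
      exact absurd ⟨_, k1, k2⟩ hex

/-- the form is diagonal -/
theorem Bf_eq (hp : ‖p‖ = 1) (b v : E5) :
    Bf (fun y => β ⟪p, (y : E5)⟫_ℝ) b v =
      Bf (fun y => β ⟪p, (y : E5)⟫_ℝ) p p * (⟪p, b⟫_ℝ * ⟪p, v⟫_ℝ) +
      ((∫ y : S4, β ⟪p, (y : E5)⟫_ℝ ∂sig) - Bf (fun y => β ⟪p, (y : E5)⟫_ℝ) p p) / 4 *
        (⟪b, v⟫_ℝ - ⟪p, b⟫_ℝ * ⟪p, v⟫_ℝ) := by
  set g : S4 → ℝ := fun y => β ⟪p, (y : E5)⟫_ℝ with hg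
  have hgc : Continuous g := cont_g hβ p
  obtain ⟨m, hm⟩ := Bf_diag hβ p
  have hpp : ⟪p, p⟫_ℝ = 1 := by rw [real_inner_self_eq_norm_sq, hp]; norm_num
  have hdec : ∀ b : E5, ⟪p, b - ⟪p, b⟫_ℝ • p⟫_ℝ = 0 := by
    intro b
    rw [inner_sub_right, real_inner_smul_right, hpp, mul_one, sub_self]
  -- polarization
  have hpol : ∀ v w : E5, ⟪p, v⟫_ℝ = 0 → ⟪p, w⟫_ℝ = 0 → Bf g v w = m * ⟪v, w⟫_ℝ := by
    intro v w hv hw
    have hvw : ⟪p, v + w⟫_ℝ = 0 := by rw [inner_add_right, hv, hw, add_zero]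
    have h1 := hm (v + w) hvw
    have h2 : Bf g (v + w) (v + w) = Bf g v v + 2 * Bf g v w + Bf g w w := by
      rw [Bf_add hgc, Bf_add' hgc, Bf_add' hgc, Bf_comm g w v]
      ring
    have h3 := hm v hv
    have h4 := hm w hw
    rw [norm_add_sq_real] at h1
    linarith
  have hgen : ∀ b v : E5, Bf g b v = Bf g p p * (⟪p, b⟫_ℝ * ⟪p, v⟫_ℝ) +
      m * (⟪b, v⟫_ℝ - ⟪p, b⟫_ℝ * ⟪p, v⟫_ℝ) := by
    intro b v
    have e1 : Bf g b v = Bf g (⟪p, b⟫_ℝ • p + (b - ⟪p, b⟫_ℝ • p))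
        (⟪p, v⟫_ℝ • p + (v - ⟪p, v⟫_ℝ • p)) := by
      rw [add_sub_cancel, add_sub_cancel]
    rw [e1, Bf_add hgc, Bf_add' hgc, Bf_add' hgc, Bf_smul, Bf_smul, Bf_smul', Bf_smul',
      Bf_comm g (b - ⟪p, b⟫_ℝ • p) p, Bf_cross hβ p (hdec v), Bf_cross hβ p (hdec b),
      hpol _ _ (hdec b) (hdec v)]
    have e2 : ⟪b - ⟪p, b⟫_ℝ • p, v - ⟪p, v⟫_ℝ • p⟫_ℝ = ⟪b, v⟫_ℝ - ⟪p, b⟫_ℝ * ⟪p, v⟫_ℝ := by
      rw [inner_sub_left, inner_sub_right, real_inner_smul_left, hdec, mul_zero, sub_zero,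
        real_inner_smul_right, real_inner_comm p b]
      ring
    rw [e2]
    ring
  -- the trace
  have htr : ∑ i : Fin 5, Bf g (ee i) (ee i) = ∫ y : S4, g y ∂sig := by
    unfold Bf
    rw [← integral_finsetSum _ (fun i _ => integrable_cont (cont_B hgc (ee i) (ee i)))]
    congr 1
    funext y
    rw [← Finset.mul_sum]
    have h1 : ∑ i : Fin 5, ⟪ee i, (y : E5)⟫_ℝ * ⟪ee i, (y : E5)⟫_ℝ = 1 := by
      have h2 : ‖(y : E5)‖ ^ 2 = ∑ i : Fin 5, (y : E5) i ^ 2 := by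
        rw [EuclideanSpace.norm_sq_eq]
        simp
      rw [S4_norm] at h2
      simp only [inner_ee']
      have h3 : ∑ i : Fin 5, (y : E5) i * (y : E5) i = ∑ i : Fin 5, (y : E5) i ^ 2 :=
        Finset.sum_congr rfl (fun i _ => by ring)
      rw [h3, ← h2]
      norm_num
    rw [h1, mul_one]
  have htr2 : ∑ i : Fin 5, Bf g (ee i) (ee i) = Bf g p p + 4 * m := by
    have h2 : ‖p‖ ^ 2 = ∑ i : Fin 5, p i ^ 2 := by
      rw [EuclideanSpace.norm_sq_eq]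
      simp
    rw [hp] at h2
    have h3 : ∀ i : Fin 5, Bf g (ee i) (ee i) = Bf g p p * p i ^ 2 + m * (1 - p i ^ 2) := by
      intro i
      rw [hgen, inner_ee, real_inner_self_eq_norm_sq, norm_ee]
      ring
    simp only [h3]
    rw [Finset.sum_add_distrib, ← Finset.mul_sum, ← Finset.mul_sum, Finset.sum_sub_distrib, ← h2]
    simp
    ring
  have hm4 : m = ((∫ y : S4, g y ∂sig) - Bf g p p) / 4 := by
    rw [← htr, htr2]; ring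
  rw [hgen, hm4]

/-- odd moments vanish -/
theorem odd_zero (hev : ∀ t, β (-t) = β t) (v : E5) :
    ∫ y : S4, β ⟪p, (y : E5)⟫_ℝ * ⟪v, (y : E5)⟫_ℝ ∂sig = 0 := by
  have hc : Continuous (fun y : S4 => β ⟪p, (y : E5)⟫_ℝ * ⟪v, (y : E5)⟫_ℝ) :=
    (cont_g hβ p).mul (cont_in v)
  have h1 := integral_act (LinearIsometryEquiv.neg ℝ) hc
  have h2 : ∀ y : S4, ((act (LinearIsometryEquiv.neg ℝ) y : S4) : E5) = -(y : E5) := fun y => rfl
  simp only [h2, inner_neg_right, hev] at h1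
  have h3 : ∫ y : S4, β ⟪p, (y : E5)⟫_ℝ * -⟪v, (y : E5)⟫_ℝ ∂sig =
      -∫ y : S4, β ⟪p, (y : E5)⟫_ℝ * ⟪v, (y : E5)⟫_ℝ ∂sig := by
    rw [← integral_neg]
    congr 1
    funext y
    ring
  rw [h3] at h1
  linarith

end

/-! ### scalar estimates -/

/-- the coefficient of `y` -/
def cA (r t : ℝ) : ℝ := (1 - r ^ 2) ^ 2 * √(1 - r ^ 2) / (1 - t) ^ 5

/-- the coefficient of `-b` -/
def cB (r t : ℝ) : ℝ := (1 - r ^ 2) ^ 2 * (1 - t / (1 + √(1 - r ^ 2))) / (1 - t) ^ 5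

theorem den_lower {t : ℝ} (ht : |t| ≤ 1 / 2) : 1 / 32 ≤ (1 - t) ^ 5 := by
  have h1 := (abs_le.1 ht).2
  calc (1 / 32 : ℝ) = (1 / 2) ^ 5 := by norm_num
    _ ≤ (1 - t) ^ 5 := by gcongr; linarith

theorem cA_est {r t : ℝ} (hr0 : 0 ≤ r) (hr : r ≤ 1 / 2) (ht : |t| ≤ r) :
    |cA r t - (1 + 5 * t)| ≤ 1696 * r ^ 2 := by
  have hD := den_lower (ht.trans hr)
  have hD0 : 0 < (1 - t) ^ 5 := by linarith
  have ht1 := abs_le.1 ht
  have hs0 : 0 ≤ √(1 - r ^ 2) := Real.sqrt_nonneg _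
  have hr2 : r ^ 2 ≤ 1 / 4 := by nlinarith
  have hs1 : √(1 - r ^ 2) ≤ 1 := by
    rw [Real.sqrt_le_left (by norm_num)]; nlinarith
  have hs2 : 1 - r ^ 2 ≤ √(1 - r ^ 2) := by
    apply Real.le_sqrt_of_sq_le
    nlinarith
  have e1 : cA r t - (1 + 5 * t) =
      ((1 - r ^ 2) ^ 2 * √(1 - r ^ 2) - (1 + 5 * t) * (1 - t) ^ 5) / (1 - t) ^ 5 := by
    unfold cA
    rw [eq_div_iff hD0.ne', sub_mul, div_mul_cancel₀ _ hD0.ne']
  have h1 : |(1 - r ^ 2) ^ 2 * √(1 - r ^ 2) - 1| ≤ 3 * r ^ 2 := by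
    rw [abs_le]
    constructor
    · have : (1 - r ^ 2) ^ 2 * (1 - r ^ 2) ≤ (1 - r ^ 2) ^ 2 * √(1 - r ^ 2) := by gcongr
      nlinarith [sq_nonneg (r ^ 2), mul_nonneg (sq_nonneg r) (sq_nonneg (r ^ 2))]
    · have : (1 - r ^ 2) ^ 2 * √(1 - r ^ 2) ≤ 1 * 1 := by
        apply mul_le_mul _ hs1 hs0 (by norm_num)
        nlinarith
      nlinarith [sq_nonneg r]
  have h2 : |(1 + 5 * t) * (1 - t) ^ 5 - 1| ≤ 50 * r ^ 2 := by
    have e2 : (1 + 5 * t) * (1 - t) ^ 5 - 1 =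
        t ^ 2 * (-15 + 40 * t - 45 * t ^ 2 + 24 * t ^ 3 - 5 * t ^ 4) := by ring
    have h3 : |(-15 + 40 * t - 45 * t ^ 2 + 24 * t ^ 3 - 5 * t ^ 4)| ≤ 50 := by
      have a0 : |t| ≤ 1 / 2 := ht.trans hr
      have a1 := abs_le.1 a0
      have a2 : t ^ 2 ≤ 1 / 4 := by nlinarith
      have a3 : |t ^ 3| ≤ 1 / 8 := by
        rw [abs_pow]
        calc |t| ^ 3 ≤ (1 / 2) ^ 3 := by gcongr
          _ = 1 / 8 := by norm_num
      have a3' := abs_le.1 a3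
      have a4 : t ^ 4 ≤ 1 / 16 := by
        have : t ^ 4 = (t ^ 2) ^ 2 := by ring
        rw [this]; nlinarith [sq_nonneg t]
      have a4' : 0 ≤ t ^ 4 := by positivity
      rw [abs_le]
      constructor <;> nlinarith [sq_nonneg t]
    rw [e2, abs_mul, abs_of_nonneg (sq_nonneg t)]
    have h4 : t ^ 2 ≤ r ^ 2 := by
      rw [← sq_abs t]; gcongr
    nlinarith [abs_nonneg (-15 + 40 * t - 45 * t ^ 2 + 24 * t ^ 3 - 5 * t ^ 4), sq_nonneg t]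
  rw [e1, abs_div, abs_of_pos hD0, div_le_iff₀ hD0]
  have h5 : |(1 - r ^ 2) ^ 2 * √(1 - r ^ 2) - (1 + 5 * t) * (1 - t) ^ 5| ≤ 53 * r ^ 2 := by
    have e3 : (1 - r ^ 2) ^ 2 * √(1 - r ^ 2) - (1 + 5 * t) * (1 - t) ^ 5 =
        ((1 - r ^ 2) ^ 2 * √(1 - r ^ 2) - 1) - ((1 + 5 * t) * (1 - t) ^ 5 - 1) := by ring
    rw [e3]
    refine (abs_sub _ _).trans ?_
    linarith
  nlinarith [sq_nonneg r]

theorem cB_est {r t : ℝ} (hr0 : 0 ≤ r) (hr : r ≤ 1 / 2) (ht : |t| ≤ r) :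
    |cB r t - 1| ≤ 512 * r := by
  have hD := den_lower (ht.trans hr)
  have hD0 : 0 < (1 - t) ^ 5 := by linarith
  have hs0 : 0 ≤ √(1 - r ^ 2) := Real.sqrt_nonneg _
  have hr2 : r ^ 2 ≤ r / 2 := by nlinarith
  have e1 : cB r t - 1 =
      ((1 - r ^ 2) ^ 2 * (1 - t / (1 + √(1 - r ^ 2))) - (1 - t) ^ 5) / (1 - t) ^ 5 := by
    unfold cB
    rw [eq_div_iff hD0.ne', sub_mul, div_mul_cancel₀ _ hD0.ne', one_mul]
  have h0 : (1 - r ^ 2) ^ 2 ≤ 1 := by nlinarith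
  have h0' : 0 ≤ (1 - r ^ 2) ^ 2 := by positivity
  have h1 : |(1 - r ^ 2) ^ 2 - 1| ≤ r := by
    rw [abs_le]
    constructor <;> nlinarith [sq_nonneg (r ^ 2)]
  have h2 : |t / (1 + √(1 - r ^ 2))| ≤ r := by
    rw [abs_div, abs_of_pos (show 0 < 1 + √(1 - r ^ 2) by linarith), div_le_iff₀ (by linarith)]
    nlinarith
  have h3 : |(1 - t) ^ 5 - 1| ≤ 14 * r := by
    have e2 : (1 - t) ^ 5 - 1 = t * (-5 + 10 * t - 10 * t ^ 2 + 5 * t ^ 3 - t ^ 4) := by ring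
    have h4 : |(-5 + 10 * t - 10 * t ^ 2 + 5 * t ^ 3 - t ^ 4)| ≤ 14 := by
      have a0 : |t| ≤ 1 / 2 := ht.trans hr
      have a1 := abs_le.1 a0
      have a2 : t ^ 2 ≤ 1 / 4 := by nlinarith
      have a3 : |t ^ 3| ≤ 1 / 8 := by
        rw [abs_pow]
        calc |t| ^ 3 ≤ (1 / 2) ^ 3 := by gcongr
          _ = 1 / 8 := by norm_num
      have a3' := abs_le.1 a3
      have a4 : t ^ 4 ≤ 1 / 16 := by
        have : t ^ 4 = (t ^ 2) ^ 2 := by ring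
        rw [this]; nlinarith [sq_nonneg t]
      have a4' : 0 ≤ t ^ 4 := by positivity
      rw [abs_le]
      constructor <;> nlinarith [sq_nonneg t]
    rw [e2, abs_mul]
    calc |t| * |(-5 + 10 * t - 10 * t ^ 2 + 5 * t ^ 3 - t ^ 4)| ≤ r * 14 := by gcongr
      _ = 14 * r := by ring
  rw [e1, abs_div, abs_of_pos hD0, div_le_iff₀ hD0]
  have h5 : |(1 - r ^ 2) ^ 2 * (1 - t / (1 + √(1 - r ^ 2))) - (1 - t) ^ 5| ≤ 16 * r := by
    have e3 : (1 - r ^ 2) ^ 2 * (1 - t / (1 + √(1 - r ^ 2))) - (1 - t) ^ 5 =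
        (((1 - r ^ 2) ^ 2 - 1) - (1 - r ^ 2) ^ 2 * (t / (1 + √(1 - r ^ 2)))) -
          ((1 - t) ^ 5 - 1) := by ring
    rw [e3]
    have h6 : |(1 - r ^ 2) ^ 2 * (t / (1 + √(1 - r ^ 2)))| ≤ r := by
      rw [abs_mul, abs_of_nonneg h0']
      nlinarith [abs_nonneg (t / (1 + √(1 - r ^ 2)))]
    refine (abs_sub _ _).trans ?_
    have h7 := abs_sub ((1 - r ^ 2) ^ 2 - 1) ((1 - r ^ 2) ^ 2 * (t / (1 + √(1 - r ^ 2))))
    linarith
  nlinarith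

/-! ### the theorem -/

set_option maxHeartbeats 1000000 in
theorem exp_ (moa : MoaStmt) (mos : MosStmt) (mom : MomStmt) : ExpStmt := by
  intro p β hβ
  obtain ⟨hβs, hev, hnn, hβ0, hsupp⟩ := hβ
  have hβc : Continuous β := hβs.continuous
  have hpn : ‖(p : E5)‖ = 1 := S4_norm p
  set g : S4 → ℝ := fun y => β ⟪(p : E5), (y : E5)⟫_ℝ with hg
  have hgc : Continuous g := cont_g hβc p
  set m0 : ℝ := ∫ y : S4, g y ∂sig with hm0
  set m2 : ℝ := Bf g p p with hm2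
  -- positivity
  have hκ : 0 < m0 - 5 * m2 := by
    obtain ⟨y0, hy0⟩ : ∃ y0 : S4, ⟪(p : E5), (y0 : E5)⟫_ℝ = 0 := by
      by_cases hv : (p : E5) 1 • ee 0 - (p : E5) 0 • ee 1 = 0
      · have h0 : (p : E5) 0 = 0 := by
          have h1 := congrArg (fun z : E5 => ⟪z, ee 1⟫_ℝ) hv
          simp only [inner_sub_left, real_inner_smul_left, inner_zero_left] at h1
          rw [inner_ee_ee (show (0 : Fin 5) ≠ 1 by decide), real_inner_self_eq_norm_sq,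
            norm_ee] at h1
          linarith
        exact ⟨⟨ee 0, mem_sphere_zero_iff_norm.2 (norm_ee 0)⟩, by
          simp only [inner_ee]; exact h0⟩
      · have hn : ‖(p : E5) 1 • ee 0 - (p : E5) 0 • ee 1‖ ≠ 0 := norm_ne_zero_iff.2 hv
        refine ⟨⟨‖(p : E5) 1 • ee 0 - (p : E5) 0 • ee 1‖⁻¹ •
          ((p : E5) 1 • ee 0 - (p : E5) 0 • ee 1), mem_sphere_zero_iff_norm.2 ?_⟩, ?_⟩
        · rw [norm_smul, norm_inv, norm_norm, inv_mul_cancel₀ hn]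
        · simp only
          rw [real_inner_smul_right, inner_sub_right, real_inner_smul_right,
            real_inner_smul_right, inner_ee, inner_ee]
          ring
    have hc : Continuous (fun y : S4 => g y * (1 - 5 * ⟪(p : E5), (y : E5)⟫_ℝ ^ 2)) :=
      hgc.mul (continuous_const.sub (continuous_const.mul ((cont_in (p : E5)).pow 2)))
    have h2 : m0 - 5 * m2 = ∫ y : S4, g y * (1 - 5 * ⟪(p : E5), (y : E5)⟫_ℝ ^ 2) ∂sig := by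
      rw [hm0, hm2]
      unfold Bf
      rw [← integral_const_mul, ← integral_sub (integrable_cont hgc)
        ((integrable_cont (cont_B hgc p p)).const_mul 5)]
      congr 1
      funext y
      ring
    rw [h2]
    refine Continuous.integral_pos_of_hasCompactSupport_nonneg_nonzero hc
      (HasCompactSupport.of_compactSpace _) (fun y => ?_) (x := y0) ?_
    · by_cases h : 2 / 5 ≤ |⟪(p : E5), (y : E5)⟫_ℝ|
      · have : g y = 0 := hsupp _ h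
        simp only [Pi.zero_apply]
        rw [this, zero_mul]
      · push Not at h
        have h3 : ⟪(p : E5), (y : E5)⟫_ℝ ^ 2 ≤ (2 / 5) ^ 2 := by
          rw [← sq_abs]; gcongr
        simp only [Pi.zero_apply]
        apply mul_nonneg (hnn _)
        linarith
    · simp only [hg, hy0]
      simpa using hβ0.ne'
  refine ⟨m0 - 5 * m2, hκ, ?_⟩
  intro η hη
  -- a bound for `g`
  obtain ⟨Cg, hCg⟩ : ∃ Cg : ℝ, ∀ y, |g y| ≤ Cg := by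
    obtain ⟨y, _, hy⟩ := isCompact_univ.exists_isMaxOn (⟨p, mem_univ p⟩ : (univ : Set S4).Nonempty)
      (hgc.abs.continuousOn)
    exact ⟨|g y|, fun z => hy (mem_univ z)⟩
  have hCg0 : 0 ≤ Cg := (abs_nonneg _).trans (hCg p)
  set Kc : ℝ := msig * (Cg * 2208) with hKc
  have hKc0 : 0 ≤ Kc := by have := msig_pos; positivity
  refine ⟨min (1 / 2) (η / (Kc + 1)), by positivity, min_le_left _ _, ?_⟩
  intro b hb
  have hb2 : ‖b‖ ≤ 1 / 2 := hb.trans (min_le_left _ _)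
  have hb3 : ‖b‖ ≤ η / (Kc + 1) := hb.trans (min_le_right _ _)
  have hb1 : ‖b‖ < 1 := by linarith
  have hnb : ‖-b‖ < 1 := by rwa [norm_neg]
  set V : E5 := ∫ y : S4, β ⟪(p : E5), (mob b y : E5)⟫_ℝ • (y : E5) ∂sig with hV
  set W : E5 := -((m0 - 5 * m2) * ⟪(p : E5), b⟫_ℝ) • (p : E5) +
    ((m0 - 5 * m2) / 4) • (b - ⟪(p : E5), b⟫_ℝ • (p : E5)) with hW
  -- continuity of the Moebius map
  have hmobc : Continuous (fun y : S4 => mob b y) := by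
    exact mos.1.comp_continuous (f := fun y : S4 => (b, y)) (continuous_const.prodMk continuous_id)
      (fun _ => hb1)
  have hVi : Integrable (fun y : S4 => β ⟪(p : E5), (mob b y : E5)⟫_ℝ • (y : E5)) sig := by
    have hc : Continuous (fun y : S4 => β ⟪(p : E5), (mob b y : E5)⟫_ℝ • (y : E5)) :=
      ((cont_g hβc (p : E5)).comp hmobc).smul continuous_subtype_val
    exact hc.integrable_of_hasCompactSupport (HasCompactSupport.of_compactSpace _)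
  obtain ⟨a1, a2, _, a4, _, _⟩ := moa (-b) hnb
  -- the change of variables
  have hkey : ∀ v : E5, ⟪v, V⟫_ℝ = ∫ y : S4, g y *
      (cA ‖b‖ ⟪b, (y : E5)⟫_ℝ * ⟪v, (y : E5)⟫_ℝ - cB ‖b‖ ⟪b, (y : E5)⟫_ℝ * ⟪v, b⟫_ℝ) ∂sig := by
    intro v
    rw [hV, ← integral_inner hVi v]
    have h1 := mom (-b) hnb (fun y => ⟪v, β ⟪(p : E5), (mob b y : E5)⟫_ℝ • (y : E5)⟫_ℝ)
    rw [← h1]
    congr 1
    funext y
    have h2 : mob b (mob (-b) y) = y := by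
      have := a4 y
      rwa [neg_neg] at this
    have h3 := a1 y
    rw [inner_neg_left] at h3
    have h4 : 0 < 1 - ⟪b, (y : E5)⟫_ℝ := by linarith
    rw [h2, real_inner_smul_right, a2 y]
    unfold mobE Jac cA cB sq
    rw [real_inner_smul_right, inner_add_right, real_inner_smul_right, real_inner_smul_right,
      inner_neg_right, inner_neg_left, norm_neg]
    have h5 : (0 : ℝ) < 1 + √(1 - ‖b‖ ^ 2) := by
      have := Real.sqrt_nonneg (1 - ‖b‖ ^ 2)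
      linarith
    have h6 : (1 : ℝ) + -⟪b, (y : E5)⟫_ℝ = 1 - ⟪b, (y : E5)⟫_ℝ := by ring
    rw [h6]
    simp only [hg]
    field_simp
    ring
  -- the main term
  have hmain : ∀ v : E5, ⟪v, W⟫_ℝ = ∫ y : S4, g y *
      ((1 + 5 * ⟪b, (y : E5)⟫_ℝ) * ⟪v, (y : E5)⟫_ℝ - ⟪v, b⟫_ℝ) ∂sig := by
    intro v
    have i1 : Integrable (fun y : S4 => g y * ⟪v, (y : E5)⟫_ℝ) sig :=
      integrable_cont (hgc.mul (cont_in v))
    have i2 := (integrable_cont (cont_B hgc b v)).const_mul 5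
    have i3 : Integrable (fun y : S4 => g y * ⟪v, b⟫_ℝ) sig :=
      integrable_cont (hgc.mul continuous_const)
    have e1 : ∫ y : S4, g y * ((1 + 5 * ⟪b, (y : E5)⟫_ℝ) * ⟪v, (y : E5)⟫_ℝ - ⟪v, b⟫_ℝ) ∂sig =
        (∫ y : S4, g y * ⟪v, (y : E5)⟫_ℝ ∂sig) + 5 * Bf g b v - m0 * ⟪v, b⟫_ℝ := by
      rw [hm0, ← integral_mul_const]
      unfold Bf
      have i12 : Integrable (fun y : S4 => g y * ⟪v, (y : E5)⟫_ℝ +
          5 * (g y * (⟪b, (y : E5)⟫_ℝ * ⟪v, (y : E5)⟫_ℝ))) sig := i1.add i2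
      rw [← integral_const_mul, ← integral_add i1 i2, ← integral_sub i12 i3]
      congr 1
      funext y
      ring
    rw [e1, odd_zero hβc (p : E5) hev v, Bf_eq hβc (p : E5) hpn b v]
    rw [hW, inner_add_right, real_inner_smul_right, real_inner_smul_right, inner_sub_right,
      real_inner_smul_right, real_inner_comm (p : E5) v, real_inner_comm v b]
    change _ = 0 + 5 * (m2 * (⟪(p : E5), b⟫_ℝ * ⟪(p : E5), v⟫_ℝ) + (m0 - m2) / 4 *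
      (⟪v, b⟫_ℝ - ⟪(p : E5), b⟫_ℝ * ⟪(p : E5), v⟫_ℝ)) - m0 * ⟪v, b⟫_ℝ
    ring
  -- the error
  have herr : ∀ v : E5, |⟪v, V - W⟫_ℝ| ≤ Kc * ‖b‖ ^ 2 * ‖v‖ := by
    intro v
    have hct : Continuous (fun y : S4 => ⟪b, (y : E5)⟫_ℝ) := cont_in b
    have hden : ∀ y : S4, (1 - ⟪b, (y : E5)⟫_ℝ) ^ 5 ≠ 0 := by
      intro y
      have h3 := a1 y
      rw [inner_neg_left] at h3
      have h4 : 0 < 1 - ⟪b, (y : E5)⟫_ℝ := by linarith
      positivity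
    have hcA : Continuous (fun y : S4 => cA ‖b‖ ⟪b, (y : E5)⟫_ℝ) := by
      unfold cA
      exact continuous_const.div ((continuous_const.sub hct).pow 5) hden
    have hcB : Continuous (fun y : S4 => cB ‖b‖ ⟪b, (y : E5)⟫_ℝ) := by
      unfold cB
      exact (continuous_const.mul (continuous_const.sub (hct.div_const _))).div
        ((continuous_const.sub hct).pow 5) hden
    have c1 : Continuous (fun y : S4 => g y *
        (cA ‖b‖ ⟪b, (y : E5)⟫_ℝ * ⟪v, (y : E5)⟫_ℝ - cB ‖b‖ ⟪b, (y : E5)⟫_ℝ * ⟪v, b⟫_ℝ)) :=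
      hgc.mul ((hcA.mul (cont_in v)).sub (hcB.mul continuous_const))
    have c2 : Continuous (fun y : S4 => g y *
        ((1 + 5 * ⟪b, (y : E5)⟫_ℝ) * ⟪v, (y : E5)⟫_ℝ - ⟪v, b⟫_ℝ)) :=
      hgc.mul (((continuous_const.add (continuous_const.mul hct)).mul (cont_in v)).sub
        continuous_const)
    rw [inner_sub_right, hkey, hmain, ← integral_sub (integrable_cont c1) (integrable_cont c2)]
    have hpt : ∀ y : S4, ‖g y * (cA ‖b‖ ⟪b, (y : E5)⟫_ℝ * ⟪v, (y : E5)⟫_ℝ -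
        cB ‖b‖ ⟪b, (y : E5)⟫_ℝ * ⟪v, b⟫_ℝ) - g y * ((1 + 5 * ⟪b, (y : E5)⟫_ℝ) * ⟪v, (y : E5)⟫_ℝ -
          ⟪v, b⟫_ℝ)‖ ≤ Cg * 2208 * ‖b‖ ^ 2 * ‖v‖ := by
      intro y
      have t1 : |⟪b, (y : E5)⟫_ℝ| ≤ ‖b‖ := by
        have := abs_real_inner_le_norm b (y : E5)
        rwa [S4_norm, mul_one] at this
      have t2 : |⟪v, (y : E5)⟫_ℝ| ≤ ‖v‖ := by
        have := abs_real_inner_le_norm v (y : E5)
        rwa [S4_norm, mul_one] at this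
      have t3 : |⟪v, b⟫_ℝ| ≤ ‖v‖ * ‖b‖ := abs_real_inner_le_norm v b
      have A1 := cA_est (norm_nonneg b) hb2 t1
      have B1 := cB_est (norm_nonneg b) hb2 t1
      have e1 : g y * (cA ‖b‖ ⟪b, (y : E5)⟫_ℝ * ⟪v, (y : E5)⟫_ℝ -
          cB ‖b‖ ⟪b, (y : E5)⟫_ℝ * ⟪v, b⟫_ℝ) - g y * ((1 + 5 * ⟪b, (y : E5)⟫_ℝ) *
            ⟪v, (y : E5)⟫_ℝ - ⟪v, b⟫_ℝ) =
          g y * ((cA ‖b‖ ⟪b, (y : E5)⟫_ℝ - (1 + 5 * ⟪b, (y : E5)⟫_ℝ)) * ⟪v, (y : E5)⟫_ℝ -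
            (cB ‖b‖ ⟪b, (y : E5)⟫_ℝ - 1) * ⟪v, b⟫_ℝ) := by ring
      rw [e1, Real.norm_eq_abs, abs_mul]
      have h7 : |(cA ‖b‖ ⟪b, (y : E5)⟫_ℝ - (1 + 5 * ⟪b, (y : E5)⟫_ℝ)) * ⟪v, (y : E5)⟫_ℝ -
            (cB ‖b‖ ⟪b, (y : E5)⟫_ℝ - 1) * ⟪v, b⟫_ℝ| ≤ 2208 * ‖b‖ ^ 2 * ‖v‖ := by
        refine (abs_sub _ _).trans ?_
        rw [abs_mul, abs_mul]
        calc |cA ‖b‖ ⟪b, (y : E5)⟫_ℝ - (1 + 5 * ⟪b, (y : E5)⟫_ℝ)| * |⟪v, (y : E5)⟫_ℝ| +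
              |cB ‖b‖ ⟪b, (y : E5)⟫_ℝ - 1| * |⟪v, b⟫_ℝ|
            ≤ (1696 * ‖b‖ ^ 2) * ‖v‖ + (512 * ‖b‖) * (‖v‖ * ‖b‖) := by gcongr
          _ = 2208 * ‖b‖ ^ 2 * ‖v‖ := by ring
      calc |g y| * |(cA ‖b‖ ⟪b, (y : E5)⟫_ℝ - (1 + 5 * ⟪b, (y : E5)⟫_ℝ)) * ⟪v, (y : E5)⟫_ℝ -
            (cB ‖b‖ ⟪b, (y : E5)⟫_ℝ - 1) * ⟪v, b⟫_ℝ|
          ≤ Cg * (2208 * ‖b‖ ^ 2 * ‖v‖) := by
            gcongr
            exact hCg y
        _ = Cg * 2208 * ‖b‖ ^ 2 * ‖v‖ := by ring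
    have h8 := norm_integral_le_of_norm_le_const (μ := sig) (Filter.Eventually.of_forall hpt)
    rw [Real.norm_eq_abs] at h8
    refine h8.trans (le_of_eq ?_)
    have h9 : (sig.real univ) = msig := rfl
    rw [h9, hKc]
    ring
  have h10 := herr (V - W)
  rw [real_inner_self_eq_norm_sq, abs_of_nonneg (sq_nonneg _)] at h10
  have h11 : ‖V - W‖ ≤ Kc * ‖b‖ ^ 2 := by
    rcases (norm_nonneg (V - W)).eq_or_lt with h | h
    · rw [← h]; positivity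
    · have : ‖V - W‖ * ‖V - W‖ ≤ Kc * ‖b‖ ^ 2 * ‖V - W‖ := by
        rw [← pow_two]; exact h10
      exact le_of_mul_le_mul_right this h
  refine h11.trans ?_
  have h12 : Kc * ‖b‖ ≤ η := by
    have h13 : Kc * (η / (Kc + 1)) ≤ η := by
      rw [mul_div_assoc', div_le_iff₀ (by linarith)]
      nlinarith
    exact (mul_le_mul_of_nonneg_left hb3 hKc0).trans h13
  calc Kc * ‖b‖ ^ 2 = (Kc * ‖b‖) * ‖b‖ := by ring
    _ ≤ η * ‖b‖ := by gcongr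

end Pool.Agent.FLX.H10
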